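import Pool.Agent.R552.DP.Main

/-!
# No weakly coupled bound states for `δ'`-interactions on open arcs

For every injective regular arc `Λ` of class `C²` in the plane there is `ω_* > 0` such that the form
`h_ω[u] = ∫ |∇u|² - ω ∫_Λ |[u]|² ds` is nonnegative on `H¹(ℝ² \ Λ)` for all `ω ≤ ω_*`.

Idea of the proof (duality). There is a function `σ` of class `C²` on the plane with `σ (γ t) = t`
for `t ∈ [0,1]` and `∇σ ≠ 0` near `Λ`. For a test function `ψ` on `(0,1)` with primitive `F` put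
`Φ = χ F(σ)` with a cutoff `χ`; here it is used that `Λ` is not closed. Then
`‖∇Φ‖₂ ≤ C ‖ψ‖₂`, and the Gauss-Green formula for the divergence free field `(∂₂Φ, -∂₁Φ)` gives
`∫ ψ [u] dt = - ∫ (∂₂Φ ∂₁u - ∂₁Φ ∂₂u)`. Hence `‖[u]‖₂ ≤ C ‖∇u‖₂`.
-/

set_option autoImplicit false

namespace Pool.Agent.Results.MP_178ab7_mp.NoWeakBoundStates

open MeasureTheory Set Pool.Agent.R552.DP

theorem unique_jump {γ : ℝ → ℝ × ℝ} (h : IsArc γ) {u v₁ v₂ : ℝ × ℝ → ℂ} {g g' : ℝ → ℂ}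
    (hj : IsJump γ u v₁ v₂ g) (hj' : IsJump γ u v₁ v₂ g') :
    g =ᵐ[volume.restrict (Icc 0 1)] g' := by
  obtain ⟨C, hC, hkey⟩ := key h
  have hdγ : Continuous (deriv γ) := h.contDiff.continuous_deriv (by norm_num)
  have hγc := h.contDiff.continuous
  have hi : ∀ {f : ℝ → ℂ}, MemLp f 2 (volume.restrict (Icc (0:ℝ) 1)) →
      ∀ {c : ℝ → ℝ}, Continuous c → IntegrableOn (fun t => c t • f t) (Icc (0:ℝ) 1) := by
    intro f hf c hc
    have : IntegrableOn f (Icc (0:ℝ) 1) := hf.integrable (by norm_num)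
    exact this.continuousOn_smul hc.continuousOn isCompact_Icc
  have h0 : IsH1 (arc γ) 0 0 0 := by
    refine ⟨MemLp.zero, MemLp.zero, MemLp.zero, ?_, ?_⟩ <;> intro φ _ _ <;> simp
  have hjump : IsJump γ 0 0 0 (fun t => g t - g' t) := by
    refine ⟨hj.mem.sub hj'.mem, ?_, ?_⟩
    · intro φ hφ
      have c : Continuous (fun t => φ (γ t) * (deriv γ t).2) := by
        have := hφ.1.continuous; fun_prop
      have e := (hj.green₁ φ hφ).symm.trans (hj'.green₁ φ hφ)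
      simp only [smul_sub]
      rw [integral_sub (hi hj.mem c) (hi hj'.mem c), neg_inj.1 e]
      simp
    · intro φ hφ
      have c : Continuous (fun t => φ (γ t) * (- (deriv γ t).1)) := by
        have := hφ.1.continuous; fun_prop
      have e := (hj.green₂ φ hφ).symm.trans (hj'.green₂ φ hφ)
      simp only [smul_sub]
      rw [integral_sub (hi hj.mem c) (hi hj'.mem c), neg_inj.1 e]
      simp
  have hk := hkey 0 0 0 _ h0 hjump
  simp only [Pi.zero_apply, norm_zero] at hk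
  norm_num at hk
  have hint : Integrable (fun t => ‖g t - g' t‖ ^ 2) (volume.restrict (Icc (0:ℝ) 1)) :=
    hjump.mem.norm.integrable_sq
  have hz := (integral_eq_zero_iff_of_nonneg (fun t => sq_nonneg _) hint).1
    (le_antisymm hk (integral_nonneg fun t => sq_nonneg _))
  filter_upwards [hz] with t ht
  have : ‖g t - g' t‖ ^ 2 = 0 := ht
  have h2 : g t - g' t = 0 := by simpa using this
  exact sub_eq_zero.1 h2

/-- Let `Λ = γ([0,1])` be an injective regular arc of class `C²` with distinct endpoints.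
(1) The jump across `Λ` of a function in `H¹(ℝ² \ Λ)` is unique up to null sets.
(2) There is `ω_* > 0` such that for all `ω ≤ ω_*` the form
`h_ω[u] = ∫ |∇u|² - ω ∫_Λ |[u]|² ds` is nonnegative on `H¹(ℝ² \ Λ)`. -/
theorem result (γ : ℝ → ℝ × ℝ) (hγ : IsArc γ) :
    (∀ (u v₁ v₂ : ℝ × ℝ → ℂ) (g g' : ℝ → ℂ), IsH1 (arc γ) u v₁ v₂ →
      IsJump γ u v₁ v₂ g → IsJump γ u v₁ v₂ g' → g =ᵐ[volume.restrict (Icc 0 1)] g') ∧
    ∃ ωs : ℝ, 0 < ωs ∧ ∀ ω ≤ ωs, ∀ (u v₁ v₂ : ℝ × ℝ → ℂ) (g : ℝ → ℂ),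
      IsH1 (arc γ) u v₁ v₂ → IsJump γ u v₁ v₂ g → 0 ≤ form γ ω v₁ v₂ g :=
  ⟨fun _ _ _ _ _ _ hj hj' => unique_jump hγ hj hj', form_nonneg hγ⟩

end Pool.Agent.Results.MP_178ab7_mp.NoWeakBoundStates
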